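import Mathlib
import Pool.Agent.HS36.Fam
import Pool.Agent.MP1bdb59P.RAll

/-!
# Hilbert specialisation for an arbitrary nonconstant function: filter form
-/

open Polynomial IsDedekindDomain

noncomputable section

open scoped Classical WithZero

namespace Pool.Agent.HSR

open Pool.Agent.MP1bdb59C Pool.Agent.HS36

universe u v

section Spec

variable {k₀ k R L : Type*} [Field k₀] [Field k] [Algebra k₀ k] [CharZero k] [CommRing R]
  [IsDomain R] [Algebra k R] [Algebra.FiniteType k R] [Field L] [Algebra R L]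
  [IsFractionRing R L] [Algebra k L] [IsScalarTower k R L]

/-- Hilbert specialisation for the function `ψ`. -/
theorem fam_psi {𝓕 : Filter k₀} (hk : HilbFam k₀ k 𝓕) {h : L} (htr : Transcendental k h)
    [FiniteDimensional (IntermediateField.adjoin k {h}) L] {ψ : R} (hψ : Transcendental k ψ) :
    {c : k₀ | (Ideal.span {ψ - algebraMap k R (algebraMap k₀ k c)}).IsMaximal} ∈ 𝓕 := by
  have hinjR : Function.Injective (algebraMap R L) := IsFractionRing.injective R L
  have hψL : Transcendental k (algebraMap R L ψ) :=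
    (transcendental_algebraMap_iff hinjR).mpr hψ
  have hfin : FiniteDimensional (IntermediateField.adjoin k {algebraMap R L ψ}) L :=
    finite_adjoin_exchange htr hψL
  have hinj : Function.Injective (aeval (algebraMap R L ψ) : k[X] →ₐ[k] L) :=
    transcendental_iff_injective.mp hψL
  let a0 : Algebra k[X] R := (aeval ψ : k[X] →ₐ[k] R).toRingHom.toAlgebra
  let a1 : Algebra k[X] L := (aeval (algebraMap R L ψ) : k[X] →ₐ[k] L).toRingHom.toAlgebra
  let a2 : Algebra (RatFunc k) L :=
    (IsFractionRing.lift (K := RatFunc k)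
      (g := (aeval (algebraMap R L ψ) : k[X] →ₐ[k] L).toRingHom) hinj).toAlgebra
  have t1 : IsScalarTower k[X] (RatFunc k) L := IsScalarTower.of_algebraMap_eq (fun p => by
    exact (IsFractionRing.lift_algebraMap hinj p).symm)
  have t2 : IsScalarTower k k[X] L := IsScalarTower.of_algebraMap_eq (fun c => by
    exact (aeval_C (R := k) (algebraMap R L ψ) c).symm)
  have t3 : IsScalarTower k k[X] R := IsScalarTower.of_algebraMap_eq (fun c => by
    exact (aeval_C (R := k) ψ c).symm)
  have t4 : IsScalarTower k[X] R L := IsScalarTower.of_algebraMap_eq (fun p => by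
    change aeval (algebraMap R L ψ) p = algebraMap R L (aeval ψ p)
    rw [aeval_algebraMap_apply])
  have hX : ∀ c : k, algebraMap k[X] R (X - C c) = ψ - algebraMap k R c := by
    intro c
    rw [map_sub]
    congr 1
    · exact aeval_X (R := k) ψ
    · exact aeval_C (R := k) ψ c
  have hfin' : FiniteDimensional (RatFunc k) L :=
    finite_ratFunc hψL (aeval_X (R := k) (algebraMap R L ψ))
  have hc1 : CharZero (RatFunc k) :=
    charZero_of_injective_algebraMap (algebraMap k (RatFunc k)).injective
  have hsep : Algebra.IsSeparable (RatFunc k) L := inferInstance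
  obtain ⟨s, hs, hint⟩ := exists_den_ft (k := k) (R := R) (L := L)
  have hbad : {c : k | s.eval c = 0}.Finite := by
    refine s.roots.toFinset.finite_toSet.subset fun c hc => ?_
    rw [Finset.mem_coe, Multiset.mem_toFinset, mem_roots hs]
    exact hc
  have hp2 : Fact (Nat.Prime 2) := ⟨Nat.prime_two⟩
  have hinf := hilbert_spec_fam (O := R) (L := L) hk (ℓ := 2) (by simp) ∅
    (fun m hm => absurd hm (Finset.notMem_empty m)) _ hbad
  refine Filter.mem_of_superset hinf ?_
  rintro c ⟨hcs, hc⟩
  have h1 := isMaximal_span L s hint hcs (fun 𝔪 h𝔪 hX => (hc 𝔪 h𝔪 hX).1)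
  rw [hX] at h1
  exact h1

end Spec

theorem fam_loc {k₀ k O L : Type*} [Field k₀] {𝓕 : Filter k₀} [Field k] [Algebra k₀ k] [CharZero k]
    [CommRing O] [IsDomain O] [Algebra k O] [Algebra.FiniteType k O] [Field L] [Algebra O L]
    [IsFractionRing O L] [Algebra k L] [IsScalarTower k O L] (hk : HilbFam k₀ k 𝓕) {h : L}
    (htr : Transcendental k h) [FiniteDimensional (IntermediateField.adjoin k {h}) L] {w θ : O}
    (hw : w ≠ 0) (hψ : Transcendental k (algebraMap O L θ - (algebraMap O L w)⁻¹)) :
    {c : k₀ | (Ideal.span {1 - w * (θ - algebraMap k O (algebraMap k₀ k c))}).IsMaximal} ∈ 𝓕 := by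
  have hle : Submonoid.powers w ≤ nonZeroDivisors O := by
    rw [Submonoid.powers_le]
    exact mem_nonZeroDivisors_of_ne_zero hw
  have hinj : Function.Injective (algebraMap O L) := IsFractionRing.injective O L
  have hwL : algebraMap O L w ≠ 0 := (map_ne_zero_iff _ hinj).mpr hw
  have k1 : IsLocalization (Submonoid.powers w) (Localization.subalgebra.ofField L _ hle) :=
    inferInstance
  set R := Localization.subalgebra.ofField L _ hle with hR
  have k2 : IsFractionRing R L := inferInstance
  have k3 : Algebra.FiniteType O R := IsLocalization.finiteType_of_monoid_fg (Submonoid.powers w) R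
  have k4 : IsScalarTower k O R := inferInstance
  have k5 : IsScalarTower k R L := inferInstance
  have k6 : Algebra.FiniteType k R := Algebra.FiniteType.trans ‹_› k3
  have hu : (algebraMap O L w)⁻¹ ∈ R := ⟨1, w, Submonoid.mem_powers w, by rw [map_one, one_mul]⟩
  obtain ⟨u, hu⟩ : ∃ u : R, algebraMap R L u = (algebraMap O L w)⁻¹ := ⟨⟨_, hu⟩, rfl⟩
  have hinjR : Function.Injective (algebraMap R L) := IsFractionRing.injective R L
  have hψR : Transcendental k (algebraMap O R θ - u) := by
    rw [← transcendental_algebraMap_iff (S := R) (A := L) hinjR, map_sub, hu,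
      ← IsScalarTower.algebraMap_apply O R L]
    exact hψ
  have hmain := fam_psi (R := R) (L := L) hk htr hψR
  refine Filter.mem_of_superset hmain fun c hc => ?_
  have hc' : (Ideal.span {algebraMap O R (θ - algebraMap k O (algebraMap k₀ k c)) - u}).IsMaximal := by
    have h1 : algebraMap O R (θ - algebraMap k O (algebraMap k₀ k c)) - u =
        (algebraMap O R θ - u) - algebraMap k R (algebraMap k₀ k c) := by
      rw [map_sub, ← IsScalarTower.algebraMap_apply k O R]
      ring
    rw [h1]
    exact hc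
  refine isMaximal_span_of_loc (R := R) (u := u) ?_ ?_ ?_ hc'
  · have h1 : Function.Injective ((algebraMap R L).comp (algebraMap O R)) := by
      rw [← IsScalarTower.algebraMap_eq]
      exact hinj
    rw [RingHom.coe_comp] at h1
    exact Function.Injective.of_comp h1
  · apply hinjR
    rw [map_mul, hu, map_one, ← IsScalarTower.algebraMap_apply O R L, mul_inv_cancel₀ hwL]
  · intro r
    obtain ⟨⟨y, ⟨_, N, rfl⟩⟩, hy⟩ := IsLocalization.surj (Submonoid.powers w) r
    refine ⟨N, y, ?_⟩
    rw [← hy, mul_comm, ← map_pow]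

section Xi

variable {k₀ : Type*} {k : Type u} {K : Type v} [Field k₀] [Field k] [Algebra k₀ k] [CharZero k]
  [Field K] [Algebra k K] {A : Type*} [CommRing A] [IsDomain A]
  [Algebra A K] [IsFractionRing A K] [Algebra k A] [IsScalarTower k A K] [Algebra.FiniteType k A]
  {f : A[X]} [hirr : Fact (Irreducible (f.map (algebraMap A K)))]
  [IsDomain (AdjoinRoot f)] [Algebra (AdjoinRoot f) (AdjoinRoot (f.map (algebraMap A K)))]
  [IsFractionRing (AdjoinRoot f) (AdjoinRoot (f.map (algebraMap A K)))]
  (halg : ∀ x, algebraMap (AdjoinRoot f) (AdjoinRoot (f.map (algebraMap A K))) x =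
    lamMap (algebraMap A K) rfl x)

include halg in
omit [IsDomain A] in
theorem fam_xi {𝓕 : Filter k₀} (hk : HilbFam k₀ k 𝓕) (hf : f.Monic) (hn : f.natDegree ≠ 1) {h : K}
    (htr : Transcendental k h) [FiniteDimensional (IntermediateField.adjoin k {h}) K]
    (hreg : ∀ x : AdjoinRoot (f.map (algebraMap A K)), IsAlgebraic k x →
      x ∈ Set.range (algebraMap k (AdjoinRoot (f.map (algebraMap A K)))))
    {g₂ : (AdjoinRoot f)[X]} (hg₂m : g₂.Monic)
    (hirr₂ : Irreducible (g₂.map (algebraMap (AdjoinRoot f)
      (AdjoinRoot (f.map (algebraMap A K)))))) {w : A} (hw : w ≠ 0) :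
    {c : k₀ | (Ideal.span {AdjoinRoot.of g₂
      (xi f w (algebraMap k A (algebraMap k₀ k c)))}).IsMaximal} ∈ 𝓕 := by
  have hfKm : (f.map (algebraMap A K)).Monic := hf.map _
  have j0 := Fact.mk hirr₂
  have j1 : IsDomain (AdjoinRoot g₂) := isDomain_adjoinRoot_of_irr hg₂m hirr₂
  let j2 : Algebra (AdjoinRoot g₂) (AdjoinRoot (g₂.map (algebraMap (AdjoinRoot f)
      (AdjoinRoot (f.map (algebraMap A K)))))) :=
    (lamMap (algebraMap (AdjoinRoot f) (AdjoinRoot (f.map (algebraMap A K)))) rfl).toAlgebra
  have j3 : IsFractionRing (AdjoinRoot g₂) (AdjoinRoot (g₂.map (algebraMap (AdjoinRoot f)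
      (AdjoinRoot (f.map (algebraMap A K)))))) :=
    isFractionRing_adjoinRoot rfl hg₂m hirr₂ (fun _ => rfl)
  have j4 : IsScalarTower k (AdjoinRoot g₂) (AdjoinRoot (g₂.map (algebraMap (AdjoinRoot f)
      (AdjoinRoot (f.map (algebraMap A K)))))) := by
    apply IsScalarTower.of_algebraMap_eq
    intro c
    change AdjoinRoot.of _ (AdjoinRoot.of _ (algebraMap k K c)) = lamMap _ rfl
      (AdjoinRoot.of g₂ (AdjoinRoot.of f (algebraMap k A c)))
    rw [lamMap_of', halg, lamMap_of', ← IsScalarTower.algebraMap_apply]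
  have j5 : Algebra.FiniteType A (AdjoinRoot f) := by
    have := (AdjoinRoot.powerBasis' hf).finite
    infer_instance
  have j6 : Algebra.FiniteType (AdjoinRoot f) (AdjoinRoot g₂) := by
    have := (AdjoinRoot.powerBasis' hg₂m).finite
    infer_instance
  have j7 : Algebra.FiniteType k (AdjoinRoot f) := Algebra.FiniteType.trans (S := A) ‹_› j5
  have j8 : Algebra.FiniteType k (AdjoinRoot g₂) :=
    Algebra.FiniteType.trans (S := AdjoinRoot f) j7 j6
  have j9 : FiniteDimensional K (AdjoinRoot (f.map (algebraMap A K))) :=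
    (AdjoinRoot.powerBasis' hfKm).finite
  have j10 : FiniteDimensional (AdjoinRoot (f.map (algebraMap A K)))
      (AdjoinRoot (g₂.map (algebraMap (AdjoinRoot f) (AdjoinRoot (f.map (algebraMap A K)))))) :=
    (AdjoinRoot.powerBasis' (hg₂m.map _)).finite
  have j11 : FiniteDimensional K (AdjoinRoot (g₂.map (algebraMap (AdjoinRoot f)
      (AdjoinRoot (f.map (algebraMap A K)))))) :=
    Module.Finite.trans (AdjoinRoot (f.map (algebraMap A K))) _
  have j12 := finite_adjoin_ext (k := k) (k' := k) (K' := AdjoinRoot (g₂.map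
    (algebraMap (AdjoinRoot f) (AdjoinRoot (f.map (algebraMap A K)))))) h
  have htr' : Transcendental k (algebraMap K (AdjoinRoot (g₂.map
      (algebraMap (AdjoinRoot f) (AdjoinRoot (f.map (algebraMap A K)))))) h) :=
    (transcendental_algebraMap_iff (RingHom.injective _)).mpr htr
  have hwg : AdjoinRoot.of g₂ (AdjoinRoot.of f w) ≠ 0 := by
    intro h0
    have h1 := congrArg (algebraMap (AdjoinRoot g₂) (AdjoinRoot (g₂.map (algebraMap (AdjoinRoot f)
      (AdjoinRoot (f.map (algebraMap A K))))))) h0
    rw [map_zero] at h1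
    change lamMap _ rfl (AdjoinRoot.of g₂ (AdjoinRoot.of f w)) = 0 at h1
    rw [lamMap_of', halg, lamMap_of', map_eq_zero, map_eq_zero, IsFractionRing.to_map_eq_zero_iff]
      at h1
    exact hw h1
  have hmain := fam_loc (O := AdjoinRoot g₂) hk htr' (w := AdjoinRoot.of g₂ (AdjoinRoot.of f w))
    (θ := AdjoinRoot.of g₂ (AdjoinRoot.root f)) hwg (by
      have h1 := transcendental_psi (k := k) hfKm (by rwa [hf.natDegree_map]) hreg
        (algebraMap A K w)⁻¹
      have h2 := (transcendental_algebraMap_iff (R := k) (A := AdjoinRoot (g₂.map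
        (algebraMap (AdjoinRoot f) (AdjoinRoot (f.map (algebraMap A K))))))
        (RingHom.injective (algebraMap (AdjoinRoot (f.map (algebraMap A K))) _))).mpr h1
      convert h2 using 1
      rw [map_sub]
      change lamMap _ rfl (AdjoinRoot.of g₂ (AdjoinRoot.root f)) -
        (lamMap _ rfl (AdjoinRoot.of g₂ (AdjoinRoot.of f w)))⁻¹ = _
      rw [lamMap_of', lamMap_of', halg, halg, lamMap_of', map_inv₀, map_inv₀]
      congr 1
      rw [← AdjoinRoot.mk_X, lamMap_mk, map_X, AdjoinRoot.mk_X]
      rfl)
  refine Filter.mem_of_superset hmain fun c hc => ?_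
  have h1 : AdjoinRoot.of g₂ (xi f w (algebraMap k A (algebraMap k₀ k c))) =
      1 - AdjoinRoot.of g₂ (AdjoinRoot.of f w) * (AdjoinRoot.of g₂ (AdjoinRoot.root f) -
        algebraMap k (AdjoinRoot g₂) (algebraMap k₀ k c)) := by
    have h2 : algebraMap k (AdjoinRoot g₂) (algebraMap k₀ k c) = AdjoinRoot.of g₂
      (AdjoinRoot.of f (algebraMap k A (algebraMap k₀ k c))) := rfl
    rw [h2]
    unfold xi
    rw [map_add, map_mul, map_sub, map_one]
    ring
  change (Ideal.span _).IsMaximal
  rw [h1]
  exact hc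

end Xi

end Pool.Agent.HSR
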