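import Mathlib
import Pool.Agent.HSR.Core
import Pool.Agent.MP1bdb59C.HilbFin

/-!
# Twists with a point over function fields over a Hilbertian field: the final theorem
-/

open Polynomial IsDedekindDomain

noncomputable section

open scoped Classical WithZero

namespace Pool.Agent.HSR

open Pool.Agent.MP1bdb59C Pool.Agent.HS36

open Pool.Agent.MP1bdb59 (Sep AbsGal emb resGal Place Completion placeOf TateModule)

universe u v

section Fin

variable {k₀ : Type*} {k : Type u} {K : Type v} [Field k₀] [Field k] [Algebra k₀ k] [CharZero k]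
  [Field K] [Algebra k K]
  {ℓ : ℕ} [hp : Fact ℓ.Prime]

/-- The main theorem, over a domain `A` containing the coefficients. -/
theorem fam_lift {𝓕 : Filter k₀} [Algebra k[X] K] [IsScalarTower k k[X] K] [Algebra (RatFunc k) K]
    [IsScalarTower k[X] (RatFunc k) K] [FiniteDimensional (RatFunc k) K]
    {A : Type*} [CommRing A] [IsDedekindDomain A] [Algebra k[X] A] [Algebra A K]
    [IsFractionRing A K] [IsScalarTower k[X] A K] [Algebra k A] [IsScalarTower k k[X] A]
    [IsScalarTower k A K] [Algebra.FiniteType k A]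
    (hk : HilbFam k₀ k 𝓕) {ζ : k} (hζ : IsPrimitiveRoot ζ ℓ) (s : k[X])
    (hs : s ≠ 0) (hint : ∀ a : A, ∃ N : ℕ, IsIntegral k[X] (algebraMap k[X] A s ^ N * a))
    {h : K} (htr : Transcendental k h) [FiniteDimensional (IntermediateField.adjoin k {h}) K]
    (hX : ∀ c : k, algebraMap k[X] K (X - C c) = h - algebraMap k K c)
    {f : K[X]} (hf : f.Monic) (hirr : Irreducible f) (hcop : ¬ ℓ ∣ f.natDegree)
    (hn1 : f.natDegree ≠ 1)
    (hreg : ∀ x : AdjoinRoot f, IsAlgebraic k x → x ∈ Set.range (algebraMap k (AdjoinRoot f)))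
    {q : (AdjoinRoot f)[X]}
    (hq : f.map (AdjoinRoot.of f) = (X - C (AdjoinRoot.root f)) * q) (hqirr : Irreducible q)
    {a b : K[X]} (hab : a * f + b * derivative f = 1) {W : Finset K}
    (hWf : f.coeffs ⊆ W) (hWa : a.coeffs ⊆ W) (hWb : b.coeffs ⊆ W)
    (hmem : ∀ x ∈ W, x ∈ Set.range (algebraMap A K))
    {ζK : K} (hζK : IsPrimitiveRoot ζK ℓ) (hζζ : algebraMap k K ζ = ζK) :
    {c₁ : k₀ | {c₂ : k₀ | ∀ j N : ℕ, f.natDegree * j + 1 = ℓ * N → ∀ w D : K, ∀ g : K[X],
      w = h - algebraMap k K (algebraMap k₀ k c₁) →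
      D = w ^ f.natDegree * f.eval (algebraMap k K (algebraMap k₀ k c₂) + w⁻¹) →
      g = f.scaleRoots (D ^ j * w) → ∃ _ : Good ℓ g, Concl k ℓ hζK g
        (D ^ j * (algebraMap k K (algebraMap k₀ k c₂) * w + 1)) (D ^ N)} ∈ 𝓕} ∈ 𝓕 := by
  have hlift : ∀ q : K[X], q.coeffs ⊆ W → ∃ q' : A[X], q'.map (algebraMap A K) = q := by
    intro q hq
    have h1 : q ∈ lifts (algebraMap A K) := by
      rw [lifts_iff_coeff_lifts]
      intro n
      by_cases h0 : q.coeff n = 0
      · rw [h0]
        exact ⟨0, map_zero _⟩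
      · exact hmem _ (hq (coeff_mem_coeffs h0))
    exact (mem_lifts q).mp h1
  obtain ⟨fA, rfl⟩ := hlift f hWf
  obtain ⟨aA, rfl⟩ := hlift a hWa
  obtain ⟨bA, rfl⟩ := hlift b hWb
  have hinjA : Function.Injective (algebraMap A K) := IsFractionRing.injective A K
  have hfA : fA.Monic := monic_of_injective hinjA hf
  have hsepA : fA.Separable := by
    refine ⟨aA, bA, ?_⟩
    apply map_injective _ hinjA
    rw [Polynomial.map_add, Polynomial.map_mul, Polynomial.map_mul, Polynomial.map_one,
      ← derivative_map]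
    exact hab
  have hdeg : (fA.map (algebraMap A K)).natDegree = fA.natDegree := hfA.natDegree_map _
  rw [hdeg] at hcop hn1 ⊢
  exact fam_core hk hζ s hs hint htr hX hfA hsepA hirr hcop hn1 hreg hq hqirr hζK hζζ

/-- The main theorem, for a function field over `k(h)`. -/
theorem fam_aux {𝓕 : Filter k₀} [Algebra k[X] K] [IsScalarTower k k[X] K] [Algebra (RatFunc k) K]
    [IsScalarTower k[X] (RatFunc k) K] [FiniteDimensional (RatFunc k) K]
    (hk : HilbFam k₀ k 𝓕) {ζ : k} (hζ : IsPrimitiveRoot ζ ℓ)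
    {h : K} (htr : Transcendental k h) [FiniteDimensional (IntermediateField.adjoin k {h}) K]
    (hX : ∀ c : k, algebraMap k[X] K (X - C c) = h - algebraMap k K c)
    {f : K[X]} (hf : f.Monic) (hirr : Irreducible f) (hcop : ¬ ℓ ∣ f.natDegree)
    (hn1 : f.natDegree ≠ 1)
    (hreg : ∀ x : AdjoinRoot f, IsAlgebraic k x → x ∈ Set.range (algebraMap k (AdjoinRoot f)))
    {q : (AdjoinRoot f)[X]}
    (hq : f.map (AdjoinRoot.of f) = (X - C (AdjoinRoot.root f)) * q) (hqirr : Irreducible q)
    {ζK : K} (hζK : IsPrimitiveRoot ζK ℓ) (hζζ : algebraMap k K ζ = ζK) :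
    {c₁ : k₀ | {c₂ : k₀ | ∀ j N : ℕ, f.natDegree * j + 1 = ℓ * N → ∀ w D : K, ∀ g : K[X],
      w = h - algebraMap k K (algebraMap k₀ k c₁) →
      D = w ^ f.natDegree * f.eval (algebraMap k K (algebraMap k₀ k c₂) + w⁻¹) →
      g = f.scaleRoots (D ^ j * w) → ∃ _ : Good ℓ g, Concl k ℓ hζK g
        (D ^ j * (algebraMap k K (algebraMap k₀ k c₂) * w + 1)) (D ^ N)} ∈ 𝓕} ∈ 𝓕 := by
  have hc1 : CharZero (RatFunc k) :=
    charZero_of_injective_algebraMap (algebraMap k (RatFunc k)).injective
  have hc2 : CharZero K := charZero_of_injective_algebraMap (algebraMap k K).injective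
  have hs1 : Algebra.IsSeparable (RatFunc k) K := inferInstance
  have hsep : f.Separable := hirr.separable
  obtain ⟨a, b, hab⟩ := hsep
  -- the integral closure of `k[h]`
  set A₀ := integralClosure k[X] K with hA₀
  have j1 : IsFractionRing A₀ K :=
    integralClosure.isFractionRing_of_finite_extension (RatFunc k) K
  have j2 : IsDedekindDomain A₀ := IsIntegralClosure.isDedekindDomain k[X] (RatFunc k) K A₀
  have j3 : Module.Finite k[X] A₀ := IsIntegralClosure.finite k[X] (RatFunc k) K A₀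
  have j4 : Algebra.FiniteType k A₀ :=
    Algebra.FiniteType.trans (S := k[X]) inferInstance inferInstance
  have hinjK : Function.Injective (algebraMap k[X] K) := by
    rw [IsScalarTower.algebraMap_eq k[X] (RatFunc k) K]
    exact (algebraMap (RatFunc k) K).injective.comp (IsFractionRing.injective k[X] (RatFunc k))
  -- the denominator
  obtain ⟨W, hW⟩ : ∃ W : Finset K, W = f.coeffs ∪ a.coeffs ∪ b.coeffs := ⟨_, rfl⟩
  obtain ⟨s, hs, hsint⟩ := exists_integral_multiples k[X] (RatFunc k) W
  have hsA : algebraMap k[X] A₀ s ≠ 0 := by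
    intro h0
    apply hs
    apply hinjK
    rw [IsScalarTower.algebraMap_apply k[X] A₀ K, h0, map_zero, map_zero]
  have hle : Submonoid.powers (algebraMap k[X] A₀ s) ≤ nonZeroDivisors A₀ := by
    rw [Submonoid.powers_le]
    exact mem_nonZeroDivisors_of_ne_zero hsA
  have k1 : IsLocalization (Submonoid.powers (algebraMap k[X] A₀ s))
      (Localization.subalgebra.ofField K _ hle) := inferInstance
  set A := Localization.subalgebra.ofField K _ hle with hA
  have k2 : IsFractionRing A K := inferInstance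
  have k3 : IsDedekindDomain A := IsLocalization.isDedekindDomain A₀ hle A
  have k4 : IsScalarTower k[X] A K := inferInstance
  have k5 : IsScalarTower k k[X] A := inferInstance
  have k6 : IsScalarTower k A K := inferInstance
  have k7 : IsScalarTower A₀ A K := inferInstance
  have k8 : IsScalarTower k[X] A₀ A := inferInstance
  have k9 : Algebra.FiniteType A₀ A :=
    IsLocalization.finiteType_of_monoid_fg (Submonoid.powers (algebraMap k[X] A₀ s)) A
  have k10 : IsScalarTower k A₀ A := inferInstance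
  have k11 : Algebra.FiniteType k A := Algebra.FiniteType.trans j4 k9
  -- elements of `A`
  have hmem : ∀ x ∈ W, x ∈ Set.range (algebraMap A K) := by
    intro x hx
    have h1 : IsIntegral k[X] (s • x) := hsint x hx
    have h2 : x ∈ A := by
      refine ⟨⟨s • x, h1⟩, algebraMap k[X] A₀ s, Submonoid.mem_powers _, ?_⟩
      have h3 : algebraMap A₀ K (algebraMap k[X] A₀ s) ≠ 0 := by
        rwa [Ne, IsFractionRing.to_map_eq_zero_iff]
      rw [eq_mul_inv_iff_mul_eq₀ h3]
      change x * algebraMap k[X] K s = s • x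
      rw [Algebra.smul_def, mul_comm]
    exact ⟨⟨x, h2⟩, rfl⟩
  refine fam_lift (A := A) hk hζ s hs ?_ htr hX hf hirr hcop hn1 hreg hq hqirr hab (W := W)
    ?_ ?_ ?_ hmem hζK hζζ
  · intro x
    obtain ⟨⟨y, ⟨_, N, rfl⟩⟩, hy⟩ := IsLocalization.surj
      (Submonoid.powers (algebraMap k[X] A₀ s)) x
    refine ⟨N, ?_⟩
    have h1 : algebraMap k[X] A s ^ N * x = algebraMap A₀ A y := by
      rw [← hy, mul_comm]
      rfl
    rw [h1]
    exact (Algebra.IsIntegral.isIntegral (R := k[X]) y).map (IsScalarTower.toAlgHom k[X] A₀ A)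
  · rw [hW]
    exact fun x hx => Finset.mem_union_left _ (Finset.mem_union_left _ hx)
  · rw [hW]
    exact fun x hx => Finset.mem_union_left _ (Finset.mem_union_right _ hx)
  · rw [hW]
    exact fun x hx => Finset.mem_union_right _ hx

/-- **Twists with a point over a function field over a Hilbertian field.** -/
theorem fam_twist {𝓕 : Filter k₀} (hk : HilbFam k₀ k 𝓕) {ζ : k} (hζ : IsPrimitiveRoot ζ ℓ) {h : K}
    (htr : Transcendental k h) [FiniteDimensional (IntermediateField.adjoin k {h}) K]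
    {f : K[X]} (hf : f.Monic) (hirr : Irreducible f) (hcop : ¬ ℓ ∣ f.natDegree)
    (hn1 : f.natDegree ≠ 1)
    (hreg : ∀ x : AdjoinRoot f, IsAlgebraic k x → x ∈ Set.range (algebraMap k (AdjoinRoot f)))
    {q : (AdjoinRoot f)[X]}
    (hq : f.map (AdjoinRoot.of f) = (X - C (AdjoinRoot.root f)) * q) (hqirr : Irreducible q)
    {ζK : K} (hζK : IsPrimitiveRoot ζK ℓ) (hζζ : algebraMap k K ζ = ζK) :
    {c₁ : k₀ | {c₂ : k₀ | ∀ j N : ℕ, f.natDegree * j + 1 = ℓ * N → ∀ w D : K, ∀ g : K[X],
      w = h - algebraMap k K (algebraMap k₀ k c₁) →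
      D = w ^ f.natDegree * f.eval (algebraMap k K (algebraMap k₀ k c₂) + w⁻¹) →
      g = f.scaleRoots (D ^ j * w) → ∃ _ : Good ℓ g, Concl k ℓ hζK g
        (D ^ j * (algebraMap k K (algebraMap k₀ k c₂) * w + 1)) (D ^ N)} ∈ 𝓕} ∈ 𝓕 := by
  have hinj : Function.Injective (aeval h : k[X] →ₐ[k] K) := transcendental_iff_injective.mp htr
  let a1 : Algebra k[X] K := (aeval h : k[X] →ₐ[k] K).toRingHom.toAlgebra
  let a2 : Algebra (RatFunc k) K :=
    (IsFractionRing.lift (K := RatFunc k) (g := (aeval h : k[X] →ₐ[k] K).toRingHom) hinj).toAlgebra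
  have t1 : IsScalarTower k[X] (RatFunc k) K := IsScalarTower.of_algebraMap_eq (fun p => by
    exact (IsFractionRing.lift_algebraMap hinj p).symm)
  have t2 : IsScalarTower k k[X] K := IsScalarTower.of_algebraMap_eq (fun c => by
    exact (aeval_C (R := k) h c).symm)
  have hX : ∀ c : k, algebraMap k[X] K (X - C c) = h - algebraMap k K c := by
    intro c
    rw [map_sub]
    congr 1
    · exact aeval_X (R := k) h
    · exact aeval_C (R := k) h c
  have hfin : FiniteDimensional (RatFunc k) K := finite_ratFunc htr (aeval_X (R := k) h)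
  exact fam_aux hk hζ htr hX hf hirr hcop hn1 hreg hq hqirr hζK hζζ

end Fin

end Pool.Agent.HSR
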