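import Mathlib
import Pool.Agent.HSR.Fin

/-!
# Twists of positive rank over a function field: filter form, every prime `ℓ`
-/

open Polynomial

noncomputable section

open scoped Classical

namespace Pool.Agent.HSR

open Pool.Agent.MP1bdb59C Pool.Agent.HS36

open Pool.Agent.MP1bdb59 (Sep AbsGal emb resGal Place Completion placeOf TateModule)

universe u v

section Rank

variable {k : Type u} {K : Type v} [Field k] [CharZero k] [Field K] [Algebra k K]
  {ℓ : ℕ} [hp : Fact ℓ.Prime]

/-- **Twists with a point over a function field over a Hilbertian field, every prime `ℓ`.** -/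
theorem fam_all {𝓕 : Filter k} (hk : IsHilbFilter k 𝓕) {h : K}
    (htr : Transcendental k h) [FiniteDimensional (IntermediateField.adjoin k {h}) K]
    {f : K[X]} (hf : f.Monic) (hirr : Irreducible f) (hcop : ¬ ℓ ∣ f.natDegree)
    {q : (AdjoinRoot f)[X]}
    (hq : f.map (AdjoinRoot.of f) = (X - C (AdjoinRoot.root f)) * q) (hqirr : Irreducible q)
    (hreg : ∀ x : AdjoinRoot q, IsAlgebraic k x → x ∈ Set.range (algebraMap k (AdjoinRoot q))) :
    {c₁ : k | {c₂ : k | ∀ j : ℕ, ℓ ∣ f.natDegree * j + 1 → ∀ w D : K, ∀ g : K[X],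
      w = h - algebraMap k K c₁ →
      D = w ^ f.natDegree * f.eval (algebraMap k K c₂ + w⁻¹) →
      g = f.scaleRoots (D ^ j * w) → ∃ _ : Good ℓ g,
        (∀ ξ ∈ Sha k ℓ g, ℓ • ξ = 0 → ξ = 0) ∧
        (∀ t : Jac ℓ g K, (∀ σ, act ℓ g K σ t = t) → ℓ • t = 0 → t = 0) ∧
        ((Idx.inv (act ℓ g K) ⊤).map (nsmulAddMonoidHom ℓ)).relIndex (Idx.inv (act ℓ g K) ⊤) =
          ℓ ^ ((ℓ - 1) / Module.finrank k (CyclotomicField ℓ k))} ∈ 𝓕} ∈ 𝓕 := by
  have hℓ := hp.out
  have hfirr := Fact.mk hirr
  have hc2 : CharZero K := charZero_of_injective_algebraMap (algebraMap k K).injective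
  have hne : NeZero (ℓ : K) := ⟨by exact_mod_cast hℓ.ne_zero⟩
  have hne' : NeZero ℓ := ⟨hℓ.ne_zero⟩
  let K' := CyclotomicField ℓ K
  have c1 : IsCyclotomicExtension {ℓ} K K' := CyclotomicField.isCyclotomicExtension ℓ K
  have i1 : FiniteDimensional K K' := IsCyclotomicExtension.finiteDimensional {ℓ} K K'
  have i2 : CharZero K' := charZero_of_injective_algebraMap (algebraMap K K').injective
  have i3 : Algebra.IsSeparable K K' := inferInstance
  have i5 : IsScalarTower k K K' := inferInstance
  set ζ : K' := IsCyclotomicExtension.zeta ℓ K K' with hζ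
  have hζs : IsPrimitiveRoot ζ ℓ := IsCyclotomicExtension.zeta_spec ℓ K K'
  have hζint : IsIntegral k ζ := by
    refine ⟨X ^ ℓ - 1, monic_X_pow_sub_C 1 hℓ.ne_zero, ?_⟩
    rw [eval₂_sub, eval₂_pow, eval₂_X, eval₂_one, hζs.pow_eq_one, sub_self]
  have htop0 : Algebra.adjoin K {ζ} = ⊤ :=
    IsCyclotomicExtension.adjoin_primitive_root_eq_top hζs
  have htop : IntermediateField.adjoin K {ζ} = ⊤ :=
    IntermediateField.adjoin_eq_top_of_algebra K {ζ} htop0
  have hregL : ∀ x : AdjoinRoot f, IsAlgebraic k x → x ∈ Set.range (algebraMap k (AdjoinRoot f)) :=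
    closed_base (K := AdjoinRoot f) hqirr hreg
  have hregK := closed_base hirr hregL
  have i6 : FiniteDimensional k (IntermediateField.adjoin k {ζ}) :=
    IntermediateField.adjoin.finiteDimensional hζint
  have hover : HilbFam k (IntermediateField.adjoin k {ζ}) 𝓕 := hilbFam_of_finite hk
  have hζ' : IsPrimitiveRoot (IntermediateField.AdjoinSimple.gen k ζ) ℓ := by
    apply IsPrimitiveRoot.of_map_of_injective
      (f := algebraMap (IntermediateField.adjoin k {ζ}) K') _ (RingHom.injective _)
    rw [IntermediateField.AdjoinSimple.algebraMap_gen]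
    exact hζs
  have htr' : Transcendental (IntermediateField.adjoin k {ζ}) (algebraMap K K' h) := by
    have h1 : Transcendental k (algebraMap K K' h) :=
      (transcendental_algebraMap_iff (algebraMap K K').injective).mpr htr
    exact h1.extendScalars _
  have i7 : FiniteDimensional (IntermediateField.adjoin (IntermediateField.adjoin k {ζ})
      {algebraMap K K' h}) K' := finite_adjoin_ext (k := k) h
  have hirr' := irreducible_ext hζint htop hf hirr hregL
  have i8 := Fact.mk hirr'
  have hn : (f.map (algebraMap K K')).natDegree = f.natDegree := hf.natDegree_map _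
  have hn1 : f.natDegree ≠ 1 := by
    intro h1
    have hqm : q.Monic := (monic_X_sub_C _).of_mul_monic_left (hq ▸ hf.map _)
    have h2 := congrArg natDegree hq
    rw [hf.natDegree_map, (monic_X_sub_C _).natDegree_mul hqm, natDegree_X_sub_C, h1] at h2
    have h3 : q.natDegree = 0 := by omega
    have h4 : q = 1 := by
      rw [eq_C_of_natDegree_eq_zero h3]
      have h5 := hqm.coeff_natDegree
      rw [h3] at h5
      rw [h5, C_1]
    exact hqirr.not_isUnit (h4 ▸ isUnit_one)
  obtain ⟨q', hq', hqirr'⟩ := exists_factor_ext hζint htop hf hirr hirr' hq hqirr hreg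
  have hmain := fam_twist (k₀ := k) (𝓕 := 𝓕) (k := IntermediateField.adjoin k {ζ}) (K := K') (ℓ := ℓ)
    hover hζ' htr' (hf.map (algebraMap K K')) hirr' (by rwa [hn]) (by rwa [hn])
    (closed_ext hζint htop hf hirr hregL) hq' hqirr' (ζK := ζ) hζs
    (IntermediateField.AdjoinSimple.algebraMap_gen k ζ)
  refine Filter.mem_of_superset hmain ?_
  intro c₁ hc₁
  refine Filter.mem_of_superset hc₁ ?_
  intro c₂ hc j hj w D g hw hD hg
  obtain ⟨N, hN⟩ := hj
  have hw' : algebraMap K K' w = algebraMap K K' h -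
      algebraMap (IntermediateField.adjoin k {ζ}) K'
        (algebraMap k (IntermediateField.adjoin k {ζ}) c₁) := by
    rw [hw, map_sub]
    rfl
  have hc2' : algebraMap (IntermediateField.adjoin k {ζ}) K'
      (algebraMap k (IntermediateField.adjoin k {ζ}) c₂) =
      algebraMap K K' (algebraMap k K c₂) := rfl
  obtain ⟨hG, hC⟩ := hc j N (by rw [hn, hN]) (algebraMap K K' w) (algebraMap K K' D)
    (g.map (algebraMap K K')) hw' (by
      rw [hD, map_mul, map_pow, hn, hc2', ← map_inv₀, ← map_add, eval_map_algebraMap,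
        aeval_algebraMap_apply_eq_algebraMap_eval]) (by
      rw [hg, map_scaleRoots _ _ _ (by rw [hf.leadingCoeff, map_one]; exact one_ne_zero), map_mul,
        map_pow])
  have hG' : Good ℓ g := good_of_map hG
  refine ⟨hG', ?_⟩
  rw [hc2', ← map_mul, ← map_one (algebraMap K K'), ← map_add, ← map_pow, ← map_mul, ← map_pow]
    at hC
  have hfin := descend_rank (k := k) (k' := IntermediateField.adjoin k {ζ}) hζs htop0 g hC
  rwa [finrank_eq hζint htop hregK, finrank_cyclo hζs hζint] at hfin

end Rank

end Pool.Agent.HSR
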